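import Mathlib

open scoped TensorProduct

namespace Pool.Agent.Lib.MP_987c99_al

/-- A Poisson bracket on a commutative `k`-algebra `P`: a `k`-bilinear map with `{a, -}` a
`k`-derivation for every `a`, which is alternating and satisfies the Jacobi identity. -/
structure PoissonBracket (k P : Type*) [CommRing k] [CommRing P] [Algebra k P] where
  br : P →ₗ[k] Derivation k P P
  alt : ∀ a, br a a = 0
  jacobi : ∀ a b c, br a (br b c) + br b (br c a) + br c (br a b) = 0

namespace PoissonBracket

variable {k P : Type*} [CommRing k] [CommRing P] [Algebra k P] (B : PoissonBracket k P)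

theorem skew (a b : P) : B.br a b = -B.br b a := by
  have h := B.alt (a + b)
  simp only [map_add, Derivation.add_apply, B.alt, zero_add, add_zero] at h
  linear_combination h

/-- The Poisson center `Z(P) = {z | {z, a} = 0 for all a}`. -/
def center : Subalgebra k P where
  carrier := {z | ∀ a, B.br z a = 0}
  mul_mem' := by
    intro x y hx hy a
    have h1 : B.br a x = 0 := by rw [B.skew, hx, neg_zero]
    have h2 : B.br a y = 0 := by rw [B.skew, hy, neg_zero]
    rw [B.skew, Derivation.leibniz, h1, h2]; simp
  add_mem' := by
    intro x y hx hy a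
    rw [map_add, Derivation.add_apply, hx, hy, add_zero]
  algebraMap_mem' := by
    intro r a
    rw [B.skew, Derivation.map_algebraMap, neg_zero]

/-- The rank of `P` over its Poisson center `Z`: `dim_Q (Q ⊗_Z P)` with `Q = Frac(Z)`. -/
noncomputable def rank : Cardinal :=
  Module.rank (FractionRing B.center) (FractionRing B.center ⊗[B.center] P)

/-- `f` is Poisson normal: `f ≠ 0` and `{a, f} ∈ fP` for all `a`. -/
def IsNormal (f : P) : Prop := f ≠ 0 ∧ ∀ a, f ∣ B.br a f

/-- The log-ozone group: the additive subgroup of `Der_k(P)` generated by the derivations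
`δ_f = f⁻¹ {-, f}` (characterised by `f * δ_f a = {a, f}`), `f` Poisson normal. -/
def loz : AddSubgroup (Derivation k P P) :=
  AddSubgroup.closure {δ | ∃ f, B.IsNormal f ∧ ∀ a, f * δ a = B.br a f}

end PoissonBracket

/-- The bracket on a polynomial ring has degree zero: `{P_i, P_j} ⊆ P_{i+j}`. -/
def IsGraded {k σ : Type*} [CommRing k] (B : PoissonBracket k (MvPolynomial σ k)) : Prop :=
  ∀ (i j : ℕ) (f g : MvPolynomial σ k), f.IsHomogeneous i → g.IsHomogeneous j →
    (B.br f g).IsHomogeneous (i + j)

end Pool.Agent.Lib.MP_987c99_al
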