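import Pool.Agent.Lib.MP_987c99_al.Defs

open scoped TensorProduct
open MvPolynomial

namespace Pool.Agent.Lib.MP_987c99_al

section general

variable {k P : Type*} [CommRing k] [CommRing P] [Algebra k P]

/-- The bracket `{f, g} = E f * D g - D f * E g` of two commuting derivations. -/
noncomputable def wedge (E D : Derivation k P P) (h : ∀ a, E (D a) = D (E a)) :
    PoissonBracket k P where
  br :=
    { toFun := fun a => E a • D - D a • E
      map_add' := by
        intro a b
        ext c
        simp only [map_add, Derivation.sub_apply, Derivation.smul_apply, Derivation.add_apply,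
          smul_eq_mul]
        ring
      map_smul' := by
        intro r a
        ext c
        simp only [Derivation.map_smul, Derivation.sub_apply, Derivation.smul_apply, smul_eq_mul,
          RingHom.id_apply, smul_mul_assoc, smul_sub] }
  alt := by
    intro a
    simp only [LinearMap.coe_mk, AddHom.coe_mk, Derivation.sub_apply, Derivation.smul_apply,
      smul_eq_mul]
    ring
  jacobi := by
    intro a b c
    simp only [LinearMap.coe_mk, AddHom.coe_mk, Derivation.sub_apply, Derivation.smul_apply,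
      smul_eq_mul, map_sub, Derivation.leibniz, h]
    ring

theorem wedge_apply (E D : Derivation k P P) (h : ∀ a, E (D a) = D (E a)) (a b : P) :
    (wedge E D h).br a b = E a * D b - D a * E b := by
  simp [wedge]

theorem der_pow_of_eigen (D : Derivation k P P) (f l : P) (h : D f = l * f) (n : ℕ) :
    D (f ^ n) = n * l * f ^ n := by
  induction n with
  | zero => simp
  | succ n ih =>
    rw [pow_succ, Derivation.leibniz, ih, h]
    simp only [smul_eq_mul]
    push_cast
    ring

theorem pow_char_mem_center (B : PoissonBracket k P) (p : ℕ) [CharP P p] (f : P) :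
    f ^ p ∈ B.center := by
  intro a
  rw [B.skew, Derivation.leibniz_pow, nsmul_eq_mul, CharP.cast_eq_zero, zero_mul, neg_zero]

theorem rank_le_of_gen (Q T : Type*) [Field Q] [CommRing T] [Algebra Q T] (x w : T) (p : ℕ)
    (hp : 0 < p) (a b : Q) (hx : x ^ p = algebraMap Q T a) (hw : w ^ p = algebraMap Q T b)
    (htop : Algebra.adjoin Q {x, w} = ⊤) : Module.rank Q T ≤ (p : Cardinal) ^ 2 := by
  let v : Fin p × Fin p → T := fun e => x ^ (e.1 : ℕ) * w ^ (e.2 : ℕ)
  let S : Submodule Q T := Submodule.span Q (Set.range v)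
  have hv : ∀ i j : ℕ, x ^ i * w ^ j ∈ S := by
    intro i j
    have ha : x ^ i = a ^ (i / p) • x ^ (i % p) := by
      rw [Algebra.smul_def, map_pow, ← hx, ← pow_mul, ← pow_add, Nat.div_add_mod]
    have hb : w ^ j = b ^ (j / p) • w ^ (j % p) := by
      rw [Algebra.smul_def, map_pow, ← hw, ← pow_mul, ← pow_add, Nat.div_add_mod]
    rw [ha, hb, smul_mul_smul_comm]
    exact S.smul_mem _ (Submodule.subset_span
      ⟨(⟨i % p, Nat.mod_lt _ hp⟩, ⟨j % p, Nat.mod_lt _ hp⟩), rfl⟩)
  have hAS : ∀ a ∈ Algebra.adjoin Q {x, w}, ∀ s ∈ S, a * s ∈ S := by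
    intro a ha
    induction ha using Algebra.adjoin_induction with
    | mem a ha =>
      intro s hs
      induction hs using Submodule.span_induction with
      | mem s hs =>
        obtain ⟨e, rfl⟩ := hs
        rcases ha with rfl | rfl
        · have := hv (e.1 + 1) e.2
          rwa [pow_succ', mul_assoc] at this
        · have := hv e.1 (e.2 + 1)
          rwa [pow_succ', mul_left_comm] at this
      | zero => simp
      | add s t _ _ hs ht => rw [mul_add]; exact S.add_mem hs ht
      | smul c s _ hs => rw [mul_smul_comm]; exact S.smul_mem _ hs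
    | algebraMap r => intro s hs; rw [← Algebra.smul_def]; exact S.smul_mem _ hs
    | add a b _ _ ha hb => intro s hs; rw [add_mul]; exact S.add_mem (ha s hs) (hb s hs)
    | mul a b _ _ ha hb => intro s hs; rw [mul_assoc]; exact ha _ (hb s hs)
  have hS : S = ⊤ := by
    rw [eq_top_iff]
    rintro t -
    have h2 := hAS t (by rw [htop]; trivial) 1 (by simpa using hv 0 0)
    rwa [mul_one] at h2
  have h1 : Module.rank Q T = Module.rank Q S := by rw [hS, rank_top]
  have h2 : Module.rank Q S ≤ Cardinal.mk (Set.range v) := rank_span_le _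
  have h3 : Cardinal.mk (Set.range v) ≤ (p : Cardinal) ^ 2 := by
    have := Cardinal.mk_range_le_lift (f := v)
    simpa [pow_two] using this
  exact h1.le.trans (h2.trans h3)

end general

variable (k : Type*) [Field k] (m : ℕ)

/-- The quadratic vector field `∑ x_i^2 ∂_i`. -/
noncomputable def quad : Derivation k (MvPolynomial (Fin (m + 1)) k) (MvPolynomial (Fin (m + 1)) k) :=
  ∑ i : Fin m, ((X i.succ : MvPolynomial (Fin (m + 1)) k) ^ 2) • pderiv i.succ

theorem quad_apply (f : MvPolynomial (Fin (m + 1)) k) :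
    quad k m f = ∑ i : Fin m, X i.succ ^ 2 * pderiv i.succ f := by
  have : ∀ s : Finset (Fin m),
      (∑ i ∈ s, ((X i.succ : MvPolynomial (Fin (m + 1)) k) ^ 2) • pderiv i.succ :
        Derivation k (MvPolynomial (Fin (m + 1)) k) (MvPolynomial (Fin (m + 1)) k)) f =
      ∑ i ∈ s, X i.succ ^ 2 * pderiv i.succ f := by
    intro s
    induction s using Finset.induction_on with
    | empty => simp
    | insert a s ha ih => rw [Finset.sum_insert ha, Finset.sum_insert ha, Derivation.add_apply, ih]; simp
  exact this _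

theorem quad_X_zero : quad k m (X 0) = 0 := by
  rw [quad_apply]
  refine Finset.sum_eq_zero fun i _ => ?_
  rw [pderiv_X_of_ne (Fin.succ_ne_zero i).symm, mul_zero]

theorem quad_X_succ (j : Fin m) : quad k m (X j.succ) = X j.succ ^ 2 := by
  rw [quad_apply, Finset.sum_eq_single j]
  · simp
  · intro i _ hij
    rw [pderiv_X_of_ne (fun h => hij (Fin.succ_injective _ h).symm), mul_zero]
  · simp

theorem comm_quad (a : MvPolynomial (Fin (m + 1)) k) :
    pderiv 0 (quad k m a) = quad k m (pderiv 0 a) := by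
  have : ⁅(pderiv 0 : Derivation k (MvPolynomial (Fin (m + 1)) k) _), quad k m⁆ = 0 := by
    apply derivation_ext
    intro i
    rw [Derivation.commutator_apply]
    refine Fin.cases ?_ (fun j => ?_) i
    · simp [quad_X_zero]
    · rw [quad_X_succ, pderiv_X_of_ne (Fin.succ_ne_zero j)]
      simp [pderiv_X_of_ne (Fin.succ_ne_zero j)]
  have h2 := congrArg (fun D : Derivation k (MvPolynomial (Fin (m + 1)) k) _ => D a) this
  simp only [Derivation.commutator_apply, Derivation.zero_apply] at h2
  exact sub_eq_zero.mp h2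

/-- The example: `{x_0, x_i} = x_i^2`, `{x_i, x_j} = 0` for `i, j ≥ 1`. -/
noncomputable def ex : PoissonBracket k (MvPolynomial (Fin (m + 1)) k) :=
  wedge (pderiv 0) (quad k m) (comm_quad k m)

theorem ex_apply (a b : MvPolynomial (Fin (m + 1)) k) :
    (ex k m).br a b = pderiv 0 a * quad k m b - quad k m a * pderiv 0 b :=
  wedge_apply _ _ _ _ _

theorem ex_zero_succ (i : Fin m) : (ex k m).br (X 0) (X i.succ) = X i.succ ^ 2 := by
  rw [ex_apply, quad_X_zero, quad_X_succ]; simp

theorem ex_succ_succ (i j : Fin m) : (ex k m).br (X i.succ) (X j.succ) = 0 := by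
  rw [ex_apply, pderiv_X_of_ne (Fin.succ_ne_zero i), pderiv_X_of_ne (Fin.succ_ne_zero j)]; simp

theorem hom_X_mul_pderiv {σ : Type*} {f : MvPolynomial σ k} {n : ℕ} (hf : f.IsHomogeneous n)
    (a b : σ) : (X a * pderiv b f).IsHomogeneous n := by
  obtain _ | n := n
  · rw [← totalDegree_zero_iff_isHomogeneous, totalDegree_eq_zero_iff_eq_C] at hf
    rw [hf, pderiv_C, mul_zero]; apply isHomogeneous_zero
  · have := (isHomogeneous_X k a).mul (hf.pderiv (i := b))
    simpa [add_comm] using this

theorem ex_graded : IsGraded (ex k m) := by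
  intro i j f g hf hg
  rw [ex_apply, quad_apply, quad_apply, Finset.mul_sum, Finset.sum_mul]
  refine IsHomogeneous.sub (IsHomogeneous.sum _ _ _ fun l _ => ?_)
    (IsHomogeneous.sum _ _ _ fun l _ => ?_)
  · have := (hom_X_mul_pderiv k hf l.succ 0).mul (hom_X_mul_pderiv k hg l.succ l.succ)
    rwa [show X l.succ * pderiv 0 f * (X l.succ * pderiv l.succ g) =
      pderiv 0 f * (X l.succ ^ 2 * pderiv l.succ g) by ring] at this
  · have := (hom_X_mul_pderiv k hf l.succ l.succ).mul (hom_X_mul_pderiv k hg l.succ 0)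
    rwa [show X l.succ * pderiv l.succ f * (X l.succ * pderiv 0 g) =
      X l.succ ^ 2 * pderiv l.succ f * pderiv 0 g by ring] at this

theorem dl_mem (i : Fin m) :
    ((X i.succ : MvPolynomial (Fin (m + 1)) k) • pderiv 0 :
      Derivation k (MvPolynomial (Fin (m + 1)) k) (MvPolynomial (Fin (m + 1)) k)) ∈ (ex k m).loz := by
  have key : ∀ a, (X i.succ : MvPolynomial (Fin (m + 1)) k) * (X i.succ * pderiv 0 a) =
      (ex k m).br a (X i.succ) := by
    intro a
    rw [ex_apply, quad_X_succ, pderiv_X_of_ne (Fin.succ_ne_zero i)]; ring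
  refine AddSubgroup.subset_closure ⟨X i.succ, ⟨X_ne_zero _, fun a => ⟨_, (key a).symm⟩⟩, fun a => ?_⟩
  simpa using key a

variable (p : ℕ) [CharP k p]

theorem loz_ge : (p : Cardinal) ^ m ≤ Cardinal.mk (ex k m).loz := by
  classical
  let F : (Fin m → Fin p) → (ex k m).loz := fun e =>
    ∑ i : Fin m, (e i : ℕ) • (⟨_, dl_mem k m i⟩ : (ex k m).loz)
  have hF : ∀ e : Fin m → Fin p, ∀ j : Fin m,
      pderiv j.succ ((F e : Derivation k (MvPolynomial (Fin (m + 1)) k) _) (X 0)) =
        C ((e j : ℕ) : k) := by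
    intro e j
    have h1 : ((F e : Derivation k (MvPolynomial (Fin (m + 1)) k) _) (X 0)) =
        ∑ i : Fin m, (e i : ℕ) • (X i.succ : MvPolynomial (Fin (m + 1)) k) := by
      have := map_sum ((Pi.evalAddMonoidHom _ (X 0 : MvPolynomial (Fin (m + 1)) k)).comp
        (Derivation.coeFnAddMonoidHom.comp (ex k m).loz.subtype))
        (fun i : Fin m => (e i : ℕ) • (⟨_, dl_mem k m i⟩ : (ex k m).loz)) Finset.univ
      refine Eq.trans this (Finset.sum_congr rfl fun i _ => ?_)
      simp [mul_comm]
    rw [h1, map_sum, Finset.sum_eq_single j]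
    · simp
    · intro i _ hij
      rw [map_nsmul, pderiv_X_of_ne (fun h => hij (Fin.succ_injective _ h)), smul_zero]
    · simp
  have hinj : Function.Injective F := by
    intro e e' h
    funext j
    have h1 := hF e j
    rw [h, hF e' j] at h1
    have h2 := C_injective _ _ h1
    exact Fin.ext (CharP.natCast_injOn_Iio k p (e j).2 (e' j).2 h2.symm)
  have := Cardinal.mk_le_of_injective (f := fun e : ULift (Fin m → Fin p) => F e.down)
    (hinj.comp ULift.down_injective)
  simpa using this

theorem u_mem_center (hp : p.Prime) (i j : Fin m) :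
    ((X i.succ - X j.succ) * (X i.succ * X j.succ) ^ (p - 1) : MvPolynomial (Fin (m + 1)) k) ∈
      (ex k m).center := by
  intro a
  have h0 : pderiv 0 ((X i.succ - X j.succ) * (X i.succ * X j.succ) ^ (p - 1) :
      MvPolynomial (Fin (m + 1)) k) = 0 := by
    simp [pderiv_X_of_ne (Fin.succ_ne_zero i), pderiv_X_of_ne (Fin.succ_ne_zero j),
      Derivation.leibniz_pow]
  have h1 : quad k m (X i.succ * X j.succ) = (X i.succ + X j.succ) * (X i.succ * X j.succ) := by
    rw [Derivation.leibniz, quad_X_succ, quad_X_succ]; simp only [smul_eq_mul]; ring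
  have h2 := der_pow_of_eigen _ _ _ h1 (p - 1)
  have h3 : ((p - 1 : ℕ) : MvPolynomial (Fin (m + 1)) k) = -1 := by
    rw [Nat.cast_sub hp.one_le, CharP.cast_eq_zero]; simp
  have h4 : quad k m ((X i.succ - X j.succ) * (X i.succ * X j.succ) ^ (p - 1)) = 0 := by
    rw [Derivation.leibniz, h2, h3, map_sub, quad_X_succ, quad_X_succ]
    simp only [smul_eq_mul]; ring
  rw [ex_apply, h0, h4]; simp

theorem rank_le (hp : p.Prime) (hm : 0 < m) : (ex k m).rank ≤ (p : Cardinal) ^ 2 := by
  classical
  set Z := (ex k m).center with hZ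
  let Q := FractionRing Z
  let T := Q ⊗[Z] MvPolynomial (Fin (m + 1)) k
  let ι : MvPolynomial (Fin (m + 1)) k →ₐ[Z] T :=
    Algebra.TensorProduct.includeRight (R := Z) (A := Q) (B := MvPolynomial (Fin (m + 1)) k)
  have hιZ : ∀ z : Z, ι z = algebraMap Q T (algebraMap Z Q z) := by
    intro z
    rw [← IsScalarTower.algebraMap_apply]
    exact ι.commutes z
  let i0 : Fin m := ⟨0, hm⟩
  let x : MvPolynomial (Fin (m + 1)) k := X i0.succ
  let w : MvPolynomial (Fin (m + 1)) k := X 0
  let A : Subalgebra Q T := Algebra.adjoin Q {ι x, ι w}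
  have hx : ι x ∈ A := Algebra.subset_adjoin (by simp)
  have hw : ι w ∈ A := Algebra.subset_adjoin (by simp)
  have hZA : ∀ z ∈ Z, ι z ∈ A := fun z hz => by
    have := hιZ ⟨z, hz⟩
    simp only at this
    rw [this]; exact A.algebraMap_mem _
  have hXA : ∀ i, ι (X i) ∈ A := by
    intro i
    refine Fin.cases hw (fun j => ?_) i
    let y : MvPolynomial (Fin (m + 1)) k := X j.succ
    let u : MvPolynomial (Fin (m + 1)) k := (x - y) * (x * y) ^ (p - 1)
    have hu : u ∈ Z := u_mem_center k m p hp i0 j
    let N : MvPolynomial (Fin (m + 1)) k := u * x + x ^ p * y ^ p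
    obtain ⟨q, hq⟩ : ∃ q, p = q + 1 := ⟨p - 1, (Nat.sub_add_cancel hp.one_le).symm⟩
    have hN : N = x ^ (p + 1) * y ^ (p - 1) := by
      simp only [N, u, hq, Nat.add_sub_cancel]; ring
    have hN0 : N ≠ 0 := by
      rw [hN]; exact mul_ne_zero (pow_ne_zero _ (X_ne_zero _)) (pow_ne_zero _ (X_ne_zero _))
    have hrel : N ^ p * y = x ^ (p + 1) * y ^ p * N ^ (p - 1) := by
      have : N * y = x ^ (p + 1) * y ^ p := by
        rw [hN]; simp only [hq, Nat.add_sub_cancel]; ring
      rw [← this]; simp only [hq, Nat.add_sub_cancel]; ring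
    have hNp : N ^ p ∈ Z := pow_char_mem_center _ p N
    have hyp : y ^ p ∈ Z := pow_char_mem_center _ p y
    have hNA : ι N ∈ A := by
      simp only [N, map_add, map_mul]
      exact A.add_mem (A.mul_mem (hZA _ hu) hx)
        (A.mul_mem (by rw [map_pow]; exact A.pow_mem hx _) (hZA _ hyp))
    have hR : ι (N ^ p * y) ∈ A := by
      rw [hrel, map_mul, map_mul, map_pow ι x, map_pow ι N]
      exact A.mul_mem (A.mul_mem (A.pow_mem hx _) (hZA _ hyp)) (A.pow_mem hNA _)
    let c : Q := algebraMap Z Q ⟨N ^ p, hNp⟩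
    have hc : c ≠ 0 := by
      intro h
      have := (IsFractionRing.injective Z Q) (h.trans (map_zero _).symm)
      exact pow_ne_zero p hN0 (congrArg Subtype.val this)
    have h5 : ι (N ^ p) = algebraMap Q T c := hιZ ⟨N ^ p, hNp⟩
    have h6 : ι y = c⁻¹ • ι (N ^ p * y) := by
      rw [map_mul, h5, ← Algebra.smul_def, smul_smul, inv_mul_cancel₀ hc, one_smul]
    change ι y ∈ A
    rw [h6]; exact A.smul_mem hR _
  have hPA : ∀ f, ι f ∈ A := by
    intro f
    induction f using MvPolynomial.induction_on with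
    | C a => exact hZA _ (Z.algebraMap_mem a)
    | add f g hf hg => rw [map_add]; exact A.add_mem hf hg
    | mul_X f i hf => rw [map_mul]; exact A.mul_mem hf (hXA i)
  have hS : A = ⊤ := by
    rw [eq_top_iff]
    rintro t -
    induction t using TensorProduct.induction_on with
    | zero => exact A.zero_mem
    | add a b ha hb => exact A.add_mem ha hb
    | tmul q f =>
      have h1 : (q ⊗ₜ[Z] f : T) = algebraMap Q T q * ι f := by
        change _ = (q ⊗ₜ[Z] 1 : T) * (1 ⊗ₜ[Z] f)
        rw [Algebra.TensorProduct.tmul_mul_tmul, mul_one, one_mul]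
      rw [h1]
      exact A.mul_mem (A.algebraMap_mem q) (hPA f)
  exact rank_le_of_gen Q T (ι x) (ι w) p hp.pos _ _
    ((map_pow ι x p).symm.trans (hιZ ⟨x ^ p, pow_char_mem_center _ p x⟩))
    ((map_pow ι w p).symm.trans (hιZ ⟨w ^ p, pow_char_mem_center _ p w⟩)) hS

end Pool.Agent.Lib.MP_987c99_al
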